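import Mathlib
import Pool.Agent.H98.Code.Defs

set_option autoImplicit false

/-!
Sides of the words of a code (MP_a46c6f_co): the abstract interface. `S u Y` stands for: `u` is the word
of an edge set `F` of the two circuits and `Y` is the set of the matching edges with all four circuit
edges at their ends in `F`.
-/

namespace Pool.Agent.H31.Q

open Pool.Agent.H98.Code

variable {V : Type}

/-- `u` is irreducible: only `0` and `u` are contained in `u` -/
def Irr (L : Submodule (ZMod 2) (V → K)) (u : V → K) : Prop :=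
  ∀ d ∈ L, (∀ v, d v = 0 ∨ d v = u v) → d = 0 ∨ d = u

/-- the properties of the sides of the words of a code without removable circuits -/
structure Sides (L : Submodule (ZMod 2) (V → K)) (S : (V → K) → Finset V → Prop) : Prop where
  mem : ∀ u Y, S u Y → u ∈ L ∧ ∀ v ∈ Y, u v = 0
  ex : ∀ u ∈ L, ∃ Y, S u Y
  compl : ∀ u Y, S u Y → ∃ Y', S u Y' ∧ ∀ v, v ∈ Y' ↔ (u v = 0 ∧ v ∉ Y)
  part : ∀ u Y, S u Y → ∀ k ∈ L, (∀ v, u v ≠ 0 → k v = 0 ∨ k v = u v) →
    ∃ k' ∈ L, (∀ v ∈ Y, k' v = k v) ∧ (∀ v, u v = 0 → v ∉ Y → k' v = 0) ∧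
      (∀ v, u v ≠ 0 → k' v = 0 ∨ k' v = u v) ∧
      (∃ Y' ⊆ Y, S k' Y') ∧ ∃ Y'' ⊆ Y, S (k' + u) Y''
  wc : ∀ u, S u ∅ → ZFree u → u ≠ 0 → ∃ g, Splits L u g

theorem k_add_self : ∀ a : K, a + a = 0 := by decide

theorem Sides.mono {L : Submodule (ZMod 2) (V → K)} {S : (V → K) → Finset V → Prop}
    (hS : Sides L S) {u : V → K} {Y : Finset V} (hu : S u Y) (hi : Irr L u) {k : V → K}
    (hk : k ∈ L) (h1 : ∀ v, u v ≠ 0 → k v = 0 ∨ k v = u v)
    (h2 : ∀ v, u v = 0 → v ∉ Y → k v = 0) : ∃ Y' ⊆ Y, S k Y' := by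
  obtain ⟨k', hk', e1, e2, e3, e4, e5⟩ := hS.part u Y hu k hk h1
  have hd : ∀ v, (k + k') v = 0 ∨ (k + k') v = u v := by
    intro v
    by_cases hv : u v = 0
    · left
      by_cases hvY : v ∈ Y
      · rw [Pi.add_apply, e1 v hvY, k_add_self]
      · rw [Pi.add_apply, h2 v hv hvY, e2 v hv hvY, add_zero]
    · rcases h1 v hv with h3 | h3 <;> rcases e3 v hv with h4 | h4 <;>
        rw [Pi.add_apply, h3, h4]
      · exact Or.inl (add_zero _)
      · exact Or.inr (zero_add _)
      · exact Or.inr (add_zero _)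
      · exact Or.inl (k_add_self _)
  have hkk : ∀ w : V → K, w + w = 0 := fun w => funext fun v => k_add_self (w v)
  rcases hi _ (L.add_mem hk hk') hd with h3 | h3
  · have : k = k' := by
      have h4 : k + k' + k' = k' := by rw [h3, zero_add]
      rwa [add_assoc, hkk, add_zero] at h4
    rw [this]
    exact e4
  · have : k = k' + u := by
      rw [← h3, add_comm k k', ← add_assoc, hkk, zero_add]
    rw [this]
    exact e5

end Pool.Agent.H31.Q
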