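import Mathlib
import Pool.Agent.H31.Q.Defs
import Pool.Agent.H57.Code.Lp
import Pool.Agent.H64.Pent.Defs

set_option autoImplicit false

/-!
Sides of the words of the code of a permutation (MP_a46c6f_co).
-/

namespace Pool.Agent.H31.Q

open Pool.Agent.H98.Code Pool.Agent.H57.Code

variable {n : ℕ} [NeZero n]

/-- the sides for the permutation `p` -/
def SP (p : Equiv.Perm (ZMod n)) (u : ZMod n → K) (Y : Finset (ZMod n)) : Prop :=
  ∃ a b : ZMod n → ZMod 2, Ev p a b ∧ u = word p a b ∧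
    ∀ i, i ∈ Y ↔ (a (i - 1) = 1 ∧ a i = 1 ∧ b (p i - 1) = 1 ∧ b (p i) = 1)

theorem exists_own (p : Equiv.Perm (ZMod n)) (a b : ZMod n → ZMod 2) :
    ∃ Y : Finset (ZMod n), ∀ i, i ∈ Y ↔
      (a (i - 1) = 1 ∧ a i = 1 ∧ b (p i - 1) = 1 ∧ b (p i) = 1) := by
  classical
  exact ⟨Finset.univ.filter fun i => a (i - 1) = 1 ∧ a i = 1 ∧ b (p i - 1) = 1 ∧ b (p i) = 1,
    fun i => by simp⟩

theorem zz : ∀ x : ZMod 2, x = 0 ∨ x = 1 := by decide

theorem loc_zero : ∀ a0 a1 b0 b1 : ZMod 2, a0 + a1 = b0 + b1 →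
    a0 = 1 ∧ a1 = 1 ∧ b0 = 1 ∧ b1 = 1 → ((a0 + a1, a1 + b1) : K) = 0 := by decide

theorem loc_compl : ∀ a0 a1 b0 b1 : ZMod 2, a0 + a1 = b0 + b1 →
    ((1 + a0 = 1 ∧ 1 + a1 = 1 ∧ 1 + b0 = 1 ∧ 1 + b1 = 1) ↔
      (((a0 + a1, a1 + b1) : K) = 0 ∧ ¬ (a0 = 1 ∧ a1 = 1 ∧ b0 = 1 ∧ b1 = 1))) := by decide

theorem loc_part (a0 a1 b0 b1 : ZMod 2) : ∀ c0 c1 d0 d1 : ZMod 2, a0 + a1 = b0 + b1 →
    c0 + c1 = d0 + d1 →
    (((a0 + a1, a1 + b1) : K) ≠ 0 → ((c0 + c1, c1 + d1) : K) = 0 ∨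
      ((c0 + c1, c1 + d1) : K) = (a0 + a1, a1 + b1)) →
    a0 * c0 + a1 * c1 = b0 * d0 + b1 * d1 := by
  rcases zz a0 with rfl | rfl <;> rcases zz a1 with rfl | rfl <;> rcases zz b0 with rfl | rfl <;>
    rcases zz b1 with rfl | rfl <;> decide

theorem loc_own (a0 a1 b0 b1 c0 c1 d1 : ZMod 2) (h : a0 = 1 ∧ a1 = 1 ∧ b0 = 1 ∧ b1 = 1) :
    ((a0 * c0 + a1 * c1, a1 * c1 + b1 * d1) : K) = (c0 + c1, c1 + d1) := by
  obtain ⟨rfl, rfl, rfl, rfl⟩ := h
  simp only [one_mul]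

theorem loc_off (a0 a1 b0 b1 : ZMod 2) : ∀ c0 c1 d1 : ZMod 2, a0 + a1 = b0 + b1 →
    ((a0 + a1, a1 + b1) : K) = 0 → ¬ (a0 = 1 ∧ a1 = 1 ∧ b0 = 1 ∧ b1 = 1) →
    ((a0 * c0 + a1 * c1, a1 * c1 + b1 * d1) : K) = 0 := by
  rcases zz a0 with rfl | rfl <;> rcases zz a1 with rfl | rfl <;> rcases zz b0 with rfl | rfl <;>
    rcases zz b1 with rfl | rfl <;> decide

theorem loc_le (a0 a1 b0 b1 : ZMod 2) : ∀ c0 c1 d0 d1 : ZMod 2, a0 + a1 = b0 + b1 →
    c0 + c1 = d0 + d1 → ((a0 + a1, a1 + b1) : K) ≠ 0 →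
    (((c0 + c1, c1 + d1) : K) = 0 ∨ ((c0 + c1, c1 + d1) : K) = (a0 + a1, a1 + b1)) →
    (((a0 * c0 + a1 * c1, a1 * c1 + b1 * d1) : K) = 0 ∨
      ((a0 * c0 + a1 * c1, a1 * c1 + b1 * d1) : K) = (a0 + a1, a1 + b1)) := by
  rcases zz a0 with rfl | rfl <;> rcases zz a1 with rfl | rfl <;> rcases zz b0 with rfl | rfl <;>
    rcases zz b1 with rfl | rfl <;> decide

theorem loc_alt : ∀ a0 a1 b0 b1 : ZMod 2, a0 + a1 = b0 + b1 → ((a0 + a1, a1 + b1) : K) ≠ z →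
    ¬ (a0 = 1 ∧ a1 = 1 ∧ b0 = 1 ∧ b1 = 1) →
    (a0 = 0 ∧ a1 = 0 ∧ b0 = 0 ∧ b1 = 0) ∨ (a0 + a1 = 1 ∧ b0 + b1 = 1) := by decide

theorem loc_mul (a0 a1 b0 b1 c0 c1 d0 d1 : ZMod 2)
    (h : a0 * c0 = 1 ∧ a1 * c1 = 1 ∧ b0 * d0 = 1 ∧ b1 * d1 = 1) :
    a0 = 1 ∧ a1 = 1 ∧ b0 = 1 ∧ b1 = 1 := by
  have key : ∀ x y : ZMod 2, x * y = 1 → x = 1 := by decide
  exact ⟨key _ _ h.1, key _ _ h.2.1, key _ _ h.2.2.1, key _ _ h.2.2.2⟩

theorem loc_v : ∀ v x1 x2 x3 : ZMod 2,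
    (((1 + x1) * v + (1 + x2) * v, (1 + x2) * v + (1 + x3) * v) : K) = 0 ∨
      (((1 + x1) * v + (1 + x2) * v, (1 + x2) * v + (1 + x3) * v) : K) = (x1 + x2, x2 + x3) := by
  decide

theorem loc_ev : ∀ v x1 x2 x3 x4 : ZMod 2, x1 + x2 = x3 + x4 →
    (1 + x1) * v + (1 + x2) * v = (1 + x3) * v + (1 + x4) * v := by decide

theorem sides (p : Equiv.Perm (ZMod n)) (hC : Pool.Agent.H64.Pent.Crit p) :
    Sides (Lp p) (SP p) := by
  refine ⟨?_, ?_, ?_, ?_, ?_⟩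
  · rintro u Y ⟨a, b, hab, rfl, hY⟩
    exact ⟨word_mem p a b hab, fun v hv => loc_zero _ _ _ _ (hab v) ((hY v).1 hv)⟩
  · rintro u ⟨a, b, hab, rfl⟩
    obtain ⟨Y, hY⟩ := exists_own p a b
    exact ⟨Y, a, b, hab, rfl, hY⟩
  · rintro u Y ⟨a, b, hab, rfl, hY⟩
    obtain ⟨Y', hY'⟩ := exists_own p (fun i => 1 + a i) (fun j => 1 + b j)
    refine ⟨Y', ⟨_, _, hab.compl, (word_compl p a b).symm, hY'⟩, ?_⟩
    intro v
    rw [hY' v, hY v]
    exact loc_compl _ _ _ _ (hab v)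
  · rintro u Y ⟨a, b, hab, rfl, hY⟩ k ⟨c, d, hcd, rfl⟩ hk
    have hev : Ev p (a * c) (b * d) := fun i =>
      loc_part _ _ _ _ _ _ _ _ (hab i) (hcd i) (hk i)
    refine ⟨word p (a * c) (b * d), word_mem p _ _ hev, ?_, ?_, ?_, ?_, ?_⟩
    · intro v hv
      exact loc_own _ _ _ _ _ _ _ ((hY v).1 hv)
    · intro v hv hvY
      exact loc_off _ _ _ _ _ _ _ (hab v) hv (fun h0 => hvY ((hY v).2 h0))
    · intro v hv
      exact loc_le _ _ _ _ _ _ _ _ (hab v) (hcd v) hv (hk v hv)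
    · obtain ⟨Y', hY'⟩ := exists_own p (a * c) (b * d)
      refine ⟨Y', ?_, _, _, hev, rfl, hY'⟩
      intro i hi
      rw [hY'] at hi
      rw [hY]
      exact loc_mul _ _ _ _ _ _ _ _ hi
    · have hw : word p (a * c) (b * d) + word p a b =
          word p (a * (fun i => 1 + c i)) (b * (fun j => 1 + d j)) := by
        funext i
        simp only [word, Pi.mul_apply, Pi.add_apply, Prod.mk_add_mk, Prod.mk.injEq]
        constructor <;> ring
      have hev' : Ev p (a * (fun i => 1 + c i)) (b * (fun j => 1 + d j)) := by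
        intro i
        have e1 := hev i
        have e2 := hab i
        simp only [Pi.mul_apply] at *
        linear_combination e1 + e2
      obtain ⟨Y', hY'⟩ := exists_own p (a * (fun i => 1 + c i)) (b * (fun j => 1 + d j))
      refine ⟨Y', ?_, _, _, hev', hw, hY'⟩
      intro i hi
      rw [hY'] at hi
      rw [hY]
      exact loc_mul _ _ _ _ _ _ _ _ hi
  · rintro u ⟨a, b, hab, rfl, hY⟩ hz h0
    have hno : ∀ i, ¬ (a (i - 1) = 1 ∧ a i = 1 ∧ b (p i - 1) = 1 ∧ b (p i) = 1) := fun i hi =>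
      Finset.notMem_empty i ((hY i).2 hi)
    have halt : Pool.Agent.H64.Pent.Alt p a b := fun i => loc_alt _ _ _ _ (hab i) (hz i) (hno i)
    have hne : ∃ i, a i = 1 := by
      by_contra hcon
      push Not at hcon
      have ha : ∀ i, a i = 0 := by
        intro i
        rcases zz (a i) with h1 | h1
        · exact h1
        · exact absurd h1 (hcon i)
      apply h0
      funext i
      rcases halt i with h1 | h1
      · show ((a (i - 1) + a i, a i + b (p i)) : K) = 0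
        rw [h1.1, h1.2.1, h1.2.2.2]
        rfl
      · rw [ha, ha] at h1
        exact absurd h1.1 (by decide)
    obtain ⟨e, s, t, h1, h2, h3⟩ := hC a b halt hne
    have hev : Ev p s t := by
      intro i
      by_cases hi : i = e
      · subst hi
        rw [h2.1, h2.2.1, h2.2.2.1, h2.2.2.2]
        decide
      · obtain ⟨v, e1, e2, e3, e4⟩ := h3 i hi
        rw [e1, e2, e3, e4]
        exact loc_ev _ _ _ _ _ (hab i)
    have hle : ∀ i, i ≠ e → word p s t i = 0 ∨ word p s t i = word p a b i := by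
      intro i hi
      obtain ⟨v, e1, e2, e3, e4⟩ := h3 i hi
      show ((s (i - 1) + s i, s i + t (p i)) : K) = 0 ∨
        ((s (i - 1) + s i, s i + t (p i)) : K) = (a (i - 1) + a i, a i + b (p i))
      rw [e1, e2, e4]
      exact loc_v _ _ _ _
    refine ⟨e, word p s t, word_mem p s t hev, word p a b + word p s t,
      (Lp p).add_mem (word_mem p a b hab) (word_mem p s t hev), ?_, ?_, ?_, ?_⟩
    · funext i
      show word p s t i + (word p a b i + word p s t i) = word p a b i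
      generalize word p s t i = k1
      generalize word p a b i = k2
      revert k1 k2
      decide
    · show ((s (e - 1) + s e, s e + t (p e)) : K) = z
      rw [h2.1, h2.2.1, h2.2.2.2]
      decide
    · show ((a (e - 1) + a e, a e + b (p e)) : K) + ((s (e - 1) + s e, s e + t (p e)) : K) = z
      rw [h1.1, h1.2.1, h1.2.2.2, h2.1, h2.2.1, h2.2.2.2]
      decide
    · intro i hi
      rcases hle i hi with h4 | h4
      · exact Or.inl h4
      · right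
        show word p a b i + word p s t i = 0
        rw [h4]
        exact k_add_self _

end Pool.Agent.H31.Q
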