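import Mathlib
import Pool.Agent.H31.Q.Geo

set_option autoImplicit false

/-!
Sides of the words of the code of a permutation (MP_a46c6f_co): uniqueness and intersections.
-/

namespace Pool.Agent.H31.Q

open Pool.Agent.H98.Code Pool.Agent.H57.Code

variable {n : ℕ} [NeZero n]

theorem loc_step : ∀ a0 a1 b1 c0 c1 d1 : ZMod 2,
    ((a0 + a1, a1 + b1) : K) = (c0 + c1, c1 + d1) → a0 + c0 = a1 + c1 ∧ a1 + c1 = b1 + d1 := by
  decide

theorem loc_eq0 : ∀ x y : ZMod 2, x + y = 0 → y = x := by decide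

theorem loc_eq1 : ∀ x y : ZMod 2, x + y = 1 → y = 1 + x := by decide

/-- the sides of a word are unique up to exchange -/
theorem SP.uniq {p : Equiv.Perm (ZMod n)} {u : ZMod n → K} {Y Y' : Finset (ZMod n)}
    (h : SP p u Y) (h' : SP p u Y') : Y' = Y ∨ ∀ v, v ∈ Y' ↔ (u v = 0 ∧ v ∉ Y) := by
  obtain ⟨a, b, hab, hu, hY⟩ := h
  obtain ⟨c, d, hcd, hu', hY'⟩ := h'
  have hst : ∀ i, a (i - 1) + c (i - 1) = a i + c i ∧ a i + c i = b (p i) + d (p i) := by
    intro i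
    refine loc_step _ _ _ _ _ _ ?_
    have h1 : word p a b i = word p c d i := by rw [← hu, ← hu']
    exact h1
  have hc : ∀ i, a i + c i = a 0 + c 0 := fun i =>
    const_of (fun i => a i + c i) (fun i => (hst i).1) i
  have hd : ∀ j, b j + d j = a 0 + c 0 := by
    intro j
    have h1 := (hst (p.symm j)).2
    rw [Equiv.apply_symm_apply] at h1
    rw [← h1]
    exact hc _
  rcases zz (a 0 + c 0) with h0 | h0
  · left
    have e1 : ∀ i, c i = a i := fun i => loc_eq0 _ _ ((hc i).trans h0)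
    have e2 : ∀ i, d i = b i := fun i => loc_eq0 _ _ ((hd i).trans h0)
    ext i
    rw [hY, hY', e1, e1, e2, e2]
  · right
    have e1 : ∀ i, c i = 1 + a i := fun i => loc_eq1 _ _ ((hc i).trans h0)
    have e2 : ∀ i, d i = 1 + b i := fun i => loc_eq1 _ _ ((hd i).trans h0)
    intro i
    rw [hY, hY', e1, e1, e2, e2, hu]
    exact loc_compl _ _ _ _ (hab i)

theorem loc_and (a0 a1 b0 b1 c0 c1 d0 d1 : ZMod 2) :
    (a0 * c0 = 1 ∧ a1 * c1 = 1 ∧ b0 * d0 = 1 ∧ b1 * d1 = 1) ↔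
      ((a0 = 1 ∧ a1 = 1 ∧ b0 = 1 ∧ b1 = 1) ∧ (c0 = 1 ∧ c1 = 1 ∧ d0 = 1 ∧ d1 = 1)) := by
  have key : ∀ x y : ZMod 2, x * y = 1 ↔ (x = 1 ∧ y = 1) := by decide
  rw [key, key, key, key]
  tauto

/-- intersections of sides -/
theorem SP.inter {p : Equiv.Perm (ZMod n)} {u k : ZMod n → K} {Y Z : Finset (ZMod n)}
    (h : SP p u Y) (h' : SP p k Z) (hk : ∀ v, u v ≠ 0 → k v = 0 ∨ k v = u v) :
    ∃ k' : ZMod n → K, (∀ v ∈ Y, k' v = k v) ∧ (∀ v, u v = 0 → v ∉ Y → k' v = 0) ∧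
      (∀ v, u v ≠ 0 → k' v = 0 ∨ k' v = u v) ∧
      (∃ Y₁, SP p k' Y₁ ∧ ∀ v, v ∈ Y₁ ↔ v ∈ Y ∧ v ∈ Z) ∧
      (∃ Y₂, SP p (u + k') Y₂ ∧ ∀ v, v ∈ Y₂ ↔ v ∈ Y ∧ k v = 0 ∧ v ∉ Z) ∧
      ∃ Y₃, SP p (k + k') Y₃ ∧ ∀ v, v ∈ Y₃ ↔ (u v = 0 ∧ v ∉ Y) ∧ v ∈ Z := by
  obtain ⟨a, b, hab, rfl, hY⟩ := h
  obtain ⟨c, d, hcd, rfl, hZ⟩ := h'
  have hev : Ev p (a * c) (b * d) := fun i =>
    loc_part _ _ _ _ _ _ _ _ (hab i) (hcd i) (hk i)
  refine ⟨word p (a * c) (b * d), ?_, ?_, ?_, ?_, ?_, ?_⟩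
  · intro v hv
    exact loc_own _ _ _ _ _ _ _ ((hY v).1 hv)
  · intro v hv hvY
    exact loc_off _ _ _ _ _ _ _ (hab v) hv (fun h0 => hvY ((hY v).2 h0))
  · intro v hv
    exact loc_le _ _ _ _ _ _ _ _ (hab v) (hcd v) hv (hk v hv)
  · obtain ⟨Y', hY'⟩ := exists_own p (a * c) (b * d)
    refine ⟨Y', ⟨_, _, hev, rfl, hY'⟩, ?_⟩
    intro v
    rw [hY', hY, hZ]
    exact loc_and _ _ _ _ _ _ _ _
  · have hw : word p a b + word p (a * c) (b * d) =
        word p (a * (fun i => 1 + c i)) (b * (fun j => 1 + d j)) := by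
      funext i
      simp only [word, Pi.mul_apply, Pi.add_apply, Prod.mk_add_mk, Prod.mk.injEq]
      constructor <;> ring
    have hev' : Ev p (a * (fun i => 1 + c i)) (b * (fun j => 1 + d j)) := by
      intro i
      have e1 := hev i
      have e2 := hab i
      simp only [Pi.mul_apply] at *
      linear_combination e1 + e2
    obtain ⟨Y', hY'⟩ := exists_own p (a * (fun i => 1 + c i)) (b * (fun j => 1 + d j))
    refine ⟨Y', ⟨_, _, hev', hw, hY'⟩, ?_⟩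
    intro v
    rw [hY', hY, hZ]
    refine (loc_and _ _ _ _ _ _ _ _).trans (and_congr_right fun _ => ?_)
    exact loc_compl _ _ _ _ (hcd v)
  · have hw : word p c d + word p (a * c) (b * d) =
        word p (c * (fun i => 1 + a i)) (d * (fun j => 1 + b j)) := by
      funext i
      simp only [word, Pi.mul_apply, Pi.add_apply, Prod.mk_add_mk, Prod.mk.injEq]
      constructor <;> ring
    have hev' : Ev p (c * (fun i => 1 + a i)) (d * (fun j => 1 + b j)) := by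
      intro i
      have e1 := hev i
      have e2 := hcd i
      simp only [Pi.mul_apply] at *
      linear_combination e1 + e2
    obtain ⟨Y', hY'⟩ := exists_own p (c * (fun i => 1 + a i)) (d * (fun j => 1 + b j))
    refine ⟨Y', ⟨_, _, hev', hw, hY'⟩, ?_⟩
    intro v
    rw [hY', hY, hZ]
    refine (loc_and _ _ _ _ _ _ _ _).trans ((and_congr_right fun _ => ?_).trans and_comm)
    exact loc_compl _ _ _ _ (hab v)

end Pool.Agent.H31.Q
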