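import Mathlib
import Pool.Agent.H31.Q.Geo2
import Pool.Agent.H19.Q.Three
import Pool.Agent.H57.Code.IndFin

set_option autoImplicit false

/-!
Critical contra pairs on permutation graphs (MP_a46c6f_co): reduction to codes with sides.
-/

namespace Pool.Agent.H31.Q

open SimpleGraph Pool.Agent.H5.Goddyn Pool.Agent.H98.TC Pool.Agent.H64.Pent Pool.Agent.H98.Code
open Pool.Agent.H57.Code

variable {n : ℕ} [NeZero n]

theorem three_of {p : Equiv.Perm (ZMod n)} {c : ZMod n → K} {g a b : ZMod n} (h : SP p c ∅)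
    (hab : a ≠ b) (hg : c g = z) (h1 : (c a).1 = 1) (h2 : (c b).1 = 1)
    (h0 : ∀ v, v ≠ g → v ≠ a → v ≠ b → c v = 0) : Pool.Agent.H19.Q.Three p := by
  obtain ⟨s, t, hst, rfl, hY⟩ := h
  refine ⟨s, t, g, a, b, hst, hg, hab, h1, h2, h0, ?_⟩
  intro i hi
  have hno : ¬ (s (i - 1) = 1 ∧ s i = 1 ∧ t (p i - 1) = 1 ∧ t (p i) = 1) := fun h3 =>
    Finset.notMem_empty i ((hY i).2 h3)
  have key : ∀ a0 a1 b0 b1 : ZMod 2, a0 + a1 = b0 + b1 → ((a0 + a1, a1 + b1) : K) = 0 →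
      ¬ (a0 = 1 ∧ a1 = 1 ∧ b0 = 1 ∧ b1 = 1) → a1 = 0 := by decide
  exact key _ _ _ _ (hst i) hi hno

/-- If every code with sides whose only nonzero `{0, z}`-word is the word `z` everywhere has (for odd
length at least five) a word of weight three with one `z` and with a side without own edges, then the
only critical contra pair on a permutation graph is the Petersen pair. -/
theorem petersen_of_sides
    (hcode : ∀ (n : ℕ) [NeZero n] (L : Submodule (ZMod 2) (ZMod n → K))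
      (S : (ZMod n → K) → Finset (ZMod n) → Prop), 5 ≤ n → n % 2 = 1 →
      IsCode L → (fun _ => z) ∈ L → (∀ u ∈ L, ZOnly u → u = 0 ∨ u = fun _ => z) → Sides L S →
      ∃ g a b c, a ≠ b ∧ a ≠ g ∧ b ≠ g ∧ S c ∅ ∧ c g = z ∧ (c a).1 = 1 ∧ (c b).1 = 1 ∧
        ∀ v, v ≠ g → v ≠ a → v ≠ b → c v = 0)
    {V : Type*} [Finite V] (G : SimpleGraph V) (M C₁ C₂ : G.Subgraph)
    (h : IsPermutationGraph G M C₁ C₂) (hrem : ∀ C : G.Subgraph, ¬ Removable G (wt M) C) :
    IsPetersenPair G M := by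
  obtain ⟨n, x, y, p, hn, hx, hy, hM⟩ := Pool.Agent.H61.Pent.exists_numb G M C₁ C₂ h
  have hC : Crit p := Pool.Agent.H59.Pent.crit_of_removable G M C₁ C₂ h hrem hn x y p hx hy hM
  have hnz : NeZero n := ⟨by omega⟩
  have h5 := Pool.Agent.H73.Pent.big hn p hC
  have hodd := Pool.Agent.H73.Pent.odd_of_crit hn p hC
  obtain ⟨g, a, b, c, hab, hag, hbg, hc, hg, ha, hb, h0⟩ :=
    hcode n (Lp p) (SP p) h5 hodd (isCode p) (z_mem p) (zonly p) (sides p hC)
  exact Pool.Agent.H19.Q.petersen_of_three G M C₁ C₂ h hrem hn x y p hx hy hM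
    (three_of hc hab hg ha hb h0)

end Pool.Agent.H31.Q
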