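import Mathlib
import Pool.Agent.H31.Q.Fin
import Pool.Agent.H16.FQ.Adapt
import Pool.Agent.H55.Q.KD
import Pool.Agent.H95.End.Leaf
import Pool.Agent.H73.P4.RS2

set_option autoImplicit false

/-!
Critical contra pairs on permutation graphs (MP_a46c6f_co, full Q1): everything from the tree theorem for
rooted codes with sides.
-/

namespace Pool.Agent.H31.Q

open SimpleGraph Pool.Agent.H5.Goddyn Pool.Agent.H98.TC Pool.Agent.H64.Pent Pool.Agent.H98.Code
open Pool.Agent.H57.Code Pool.Agent.H26.TR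
open Pool.Agent.H45.TR (W N)

/-- the tree theorem for rooted codes with sides -/
def HeartB : Prop :=
  ∀ (X : Type) [Fintype X] [DecidableEq X] (B : Submodule (ZMod 2) (X → K)) (e : X)
    (S : (X → K) → Finset X → Prop), IsCode B → NoZ B → Pool.Agent.H77.Q.RSides B e S →
    (graph B).IsTree

section
variable {V : Type} [Fintype V] [DecidableEq V] {L : Submodule (ZMod 2) (V → K)}
  {S : (V → K) → Finset V → Prop}

/-- a side which avoids `e` -/
theorem Sides.ex_root (hS : Sides L S) {e : V} {u : V → K} (hu : u ∈ L) (hue : u e = 0) :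
    ∃ Y, S u Y ∧ e ∉ Y := by
  obtain ⟨Y, hY⟩ := hS.ex u hu
  by_cases he : e ∈ Y
  · obtain ⟨Y', hY', h1⟩ := hS.compl u Y hY
    exact ⟨Y', hY', fun h2 => ((h1 e).1 h2).2 he⟩
  · exact ⟨Y, hY, he⟩

theorem Sides.wcov (hS : Sides L S) {u : V → K} (hu : u ∈ L) (hu0 : u ≠ 0) (hz : ZFree u)
    (he : ∃ e : V, ∀ v, v ≠ e → u v ≠ 0) : ∃ g, Splits L u g := by
  obtain ⟨e, he⟩ := he
  have key : ∃ Y, S u Y ∧ e ∉ Y := by
    by_cases hue : u e = 0
    · exact hS.ex_root hu hue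
    · obtain ⟨Y, hY⟩ := hS.ex u hu
      exact ⟨Y, hY, fun h1 => hue ((hS.mem u Y hY).2 e h1)⟩
  obtain ⟨Y, hY, heY⟩ := key
  have hY0 : Y = ∅ := by
    rw [Finset.eq_empty_iff_forall_notMem]
    intro v hv
    by_cases hve : v = e
    · exact heY (hve ▸ hv)
    · exact he v hve ((hS.mem u Y hY).2 v hv)
  rw [hY0] at hY
  exact hS.wc u hY hz hu0

theorem Sides.cov (hL : IsCode L) (hS : Sides L S) (e : V) (D : V → K)
    (letter : ∀ v, v ≠ e → (D v).1 = 1) (full : ∀ v, v ≠ e → ∃ u, KD L D e u ∧ u v ≠ 0) :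
    ∀ u, KD L D e u → u ≠ 0 → u e = 0 → ∃ g, Splits L u g := by
  refine Pool.Agent.H55.Q.split_of_sides hL.iso letter full (fun u Y => S u Y ∧ e ∉ Y)
    (fun u Y h => h.2) (fun u Y h => (hS.mem u Y h.1).2) (fun u hu _ hue => hS.ex_root hu hue)
    ?_ (fun u _ h0 hz _ h => hS.wc u h.1 hz h0)
  rintro u Y ⟨hY, heY⟩ _ k hk h1
  obtain ⟨k', hk', e1, e2, e3, ⟨Y', hY', e4⟩, -⟩ := hS.part u Y hY k hk h1
  exact ⟨k', hk', e1, e2, e3, fun _ => ⟨Y', hY', e4, fun h2 => heY (hY' h2)⟩⟩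

theorem toEnd (hS : Sides L S) : Pool.Agent.H95.End.Sides L S := by
  refine ⟨fun u Y h => (hS.mem u Y h).1, fun u Y h => (hS.mem u Y h).2, hS.ex, ?_, ?_⟩
  · intro u Y h
    obtain ⟨Y', h1, h2⟩ := hS.compl u Y h
    exact ⟨Y', h1, fun v hv => (h2 v).trans (and_iff_right hv)⟩
  · intro u Y h k hk h1
    obtain ⟨k', hk', e1, e2, e3, ⟨Y', hY', e4⟩, Y'', hY'', e5⟩ := hS.part u Y h k hk h1
    exact ⟨k', Y', Y'', e4, by rw [add_comm]; exact e5, hY', hY'', e1, e2, e3⟩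

theorem weight_three (hB : HeartB) (hL : IsCode L) (hz1 : (fun _ => z) ∈ L)
    (hz : ∀ u ∈ L, ZOnly u → u = 0 ∨ u = fun _ => z) (hcard : 2 ≤ Fintype.card V)
    (hS : Sides L S) :
    ∃ g a b : V, ∃ c : V → K, a ≠ b ∧ a ≠ g ∧ b ≠ g ∧ S c ∅ ∧ c g = z ∧ (c a).1 = 1 ∧
      (c b).1 = 1 ∧ ∀ v, v ≠ g → v ≠ a → v ≠ b → c v = 0 := by
  refine Pool.Agent.H16.FQ.adapt hL hz1 hz hcard (fun u hu h0 h1 h2 => hS.wcov hu h0 h1 h2)
    (fun e D' h1 h2 => hS.cov hL e D' h1 h2) ?_ ?_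
  · intro e D P M0 t h hD hDe hP hM0 hM1 ht hcode hnoz
    have hQ : P.erase M0 ⊆ P := Finset.erase_subset _ _
    have heW : ∀ M ∈ P.erase M0, e ∉ M := fun M hM => (hP.mem M (hQ hM)).2.1
    exact hB _ _ _ _ hcode hnoz (Pool.Agent.H73.P4.rsides' hL (Pool.Agent.H16.FQ.toParts hP) hQ
      h.letter ht heW hS)
  · intro e D P M0 h hD hDe hP hM0 hmax hM1 hgz y hy leaf hr
    exact Pool.Agent.H95.End.own_free (toEnd hS) hL.iso hz1 h.noz h.letter hP hM0 hmax hgz y hy leaf hr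

end

/-- everything from the tree theorem for rooted codes with sides -/
theorem main_of (hB : HeartB) {V : Type*} [Finite V] (G : SimpleGraph V) (M C₁ C₂ : G.Subgraph)
    (h : IsPermutationGraph G M C₁ C₂) (hrem : ∀ C : G.Subgraph, ¬ Removable G (wt M) C) :
    IsPetersenPair G M := by
  refine petersen_of_sides ?_ G M C₁ C₂ h hrem
  intro n _ L S h5 _ hL hz1 hz hS
  refine weight_three hB hL hz1 hz ?_ hS
  rw [ZMod.card]
  omega

end Pool.Agent.H31.Q
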