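import Mathlib
import Pool.Agent.H31.Q.Plug
import Pool.Agent.H67.Q.Side
import Pool.Agent.H26.P3.End
import Pool.Agent.H17.P3.Glue
import Pool.Agent.H62.Ind.P3

set_option autoImplicit false

/-!
Critical contra pairs on permutation graphs are the Petersen pair (MP_a46c6f_co, full Q1).
-/

namespace Pool.Agent.H31.Q

open SimpleGraph Pool.Agent.H5.Goddyn Pool.Agent.H98.TC Pool.Agent.H64.Pent Pool.Agent.H98.Code
open Pool.Agent.H17.TR

/-- **the tree theorem for rooted codes with sides** -/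
theorem heartB : HeartB := by
  intro X _ _ B e S hB hz hS
  obtain ⟨H, hs, hm⟩ := exists_matrix hB hz
  have hH : IsMat B H := ⟨hs, hm⟩
  have hH' : Pool.Agent.H32.AA.IsMat B H := ⟨hs, hm⟩
  have heq : graph B = GrH H := by
    ext v w
    rw [Pool.Agent.H32.AA.adj_iff hH', hH.adj]
  rw [heq]
  obtain ⟨M, hs', he, hinv, hp, h4⟩ := Pool.Agent.H67.Q.code_side_sides hB hH hS
  exact Pool.Agent.H26.P3.tree_end X e H M hH.sym hs' he hinv hp
    (Pool.Agent.H62.Ind.p3 X M hs' hp h4)

/-- **Goddyn's statement** -/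
theorem main {V : Type*} [Finite V] (G : SimpleGraph V) (M C₁ C₂ : G.Subgraph)
    (h : IsPermutationGraph G M C₁ C₂) (hcrit : IsCriticalContraPair G (wt M)) :
    IsPetersenPair G M := main_of heartB G M C₁ C₂ h hcrit.2

end Pool.Agent.H31.Q
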